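import Mathlib
import Pool.Agent.J4H9.Covered

/-!
# Abelian varieties of large dimension over an arbitrary fixed finite field

Fix a finite field with `q` elements, for example `q = 2`, and let the dimension `g` tend to
infinity.  The polynomials

`T ^ 2g + a₁ T ^ (2g - 1) + … + a_g T ^ g + q a_{g-1} T ^ (g - 1) + … + q ^ g`

all of whose roots have absolute value `√q` are the Weil polynomials of the abelian varieties of
dimension `g` over this field (up to the multiplicities in the theorem of Honda and Tate).  We count
the tuples `(f 1, …, f m)` of such polynomials for which the Tate conjecture is not a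
consequence of the theorem of Tate for divisors, and show that their proportion is exponentially
small in `g`, for every prime power `q` at the same time, in every set `S` of Weil polynomials which
is covered, without much loss, by boxes in the space of the coefficients `a_j` whose sides are at
least `q ^ (j / 2 - δ g)` (`BoxCovered δ q g N S`, where `N` is the sum of the numbers of elements of
the boxes).

`TateForSmall q b (f 1, …, f m)` is the following statement. Let `A` be a product of powers of
abelian varieties with the characteristic polynomials of Frobenius `f i` over the field with `q`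
elements, over any finite extension of this field.  Let `Y` be a smooth projective variety such that
every eigenvalue of Frobenius on `H = H ^ w (Y)` has a power in the field generated by all algebraic
numbers of degree at most `b`.  Then every Tate class in `⋀ ^ n H ^ 1 (A) ⊗ H ^ w (Y)` is a linear
combination of products of divisor classes on `A` and a Tate class on `Y`.  So the Tate conjecture
for `A × Y` is a consequence of the Tate conjecture for `Y`; in particular it holds for `A`. Here
`b = ⌊κ g⌋`, where `κ` is any number with `1 / 2 ≤ κ < 1`.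

The first part of the theorem is the bound for all sets `S` with `BoxCovered δ q g N S`. The other
parts are two sets to which it applies: the set of the stable Weil polynomials, those which
are still Weil polynomials after all changes of the coefficients `a_j` by at most `q ^ (j / 2 - δ g)`
(with `N` the number of all Weil polynomials), and the box `|a_j| ≤ q ^ (j / 2) / g`, all of whose
members are Weil polynomials (with `N` the number of its elements).
-/

set_option autoImplicit false

namespace Pool.Agent.Results.MP_021685_ag.FixedFieldLargeDimension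

open Polynomial Filter Pool.Agent.W521.Descent Pool.Agent.J4H9.Alg Pool.Agent.J4H9.Stb
  Pool.Agent.J4H9.Cov

theorem result (κ δ ε : ℝ) (hκ : 1 / 2 ≤ κ) (hκ1 : κ < 1) (hδ : 0 < δ) (hε : 0 < ε)
    (hδε : δ / 2 + ε < (1 - κ) / 4) :
    ∃ g₀ : ℕ, ∀ g : ℕ, g₀ ≤ g → ∀ q : ℕ, IsPrimePow q →
      (∀ (S : Set ℤ[X]) (N : ℝ), S ⊆ weilPolys q g → BoxCovered δ q g N S → ∀ m : ℕ,
        ({f : Fin m → ℤ[X] | (∀ i, f i ∈ S) ∧ ¬ TateForSmall q ⌊κ * g⌋₊ f}.ncard : ℝ) ≤
          (m : ℝ) ^ 2 * (q : ℝ) ^ (-(((1 - κ) / 4 - δ / 2 - ε) * g)) * N *
            (S.ncard : ℝ) ^ (m - 1)) ∧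
      (stable δ q g ⊆ weilPolys q g ∧
        BoxCovered δ q g ((weilPolys q g).ncard : ℝ) (stable δ q g)) ∧
      smallBox q g ⊆ weilPolys q g ∧
        BoxCovered δ q g ((smallBox q g).ncard : ℝ) (smallBox q g) ∧
        (smallBox q g).ncard = ∏ j ∈ Finset.Icc 1 g, (2 * ⌊Real.sqrt q ^ j / g⌋ + 1).toNat := by
  obtain ⟨g₀, h⟩ := eventually_atTop.1 (((covered hκ hκ1 hδ.le hε hδε).and
    (smallBox_covered hδ)).and (eventually_gt_atTop 0))
  refine ⟨g₀, fun g hg q hq => ⟨?_, ⟨stable_subset δ q g, stable_covered δ hq.pos.ne' (h g hg).2⟩,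
    (h g hg).1.2 q hq⟩⟩
  intro S N hS hN m
  have hSfin : S.Finite :=
    (Pool.Agent.W521.Count.finite_weilPolys (g := g) hq.pos.ne').subset hS
  have hfin : {f : Fin m → ℤ[X] | (∀ i, f i ∈ S) ∧
      ¬ Pool.Agent.J4H9.Stm.Holds q ⌊κ * g⌋₊ f}.Finite := by
    refine Set.Finite.subset (Set.Finite.pi' fun _ : Fin m => hSfin) ?_
    rintro f ⟨h3, -⟩
    exact h3
  have hsub : {f : Fin m → ℤ[X] | (∀ i, f i ∈ S) ∧ ¬ TateForSmall q ⌊κ * g⌋₊ f} ⊆
      {f : Fin m → ℤ[X] | (∀ i, f i ∈ S) ∧ ¬ Pool.Agent.J4H9.Stm.Holds q ⌊κ * g⌋₊ f} :=
    fun f hf => ⟨hf.1, fun h2 => hf.2 h2.1⟩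
  refine le_trans ?_ ((h g hg).1.1 q hq S N hS hN m)
  exact_mod_cast Set.ncard_le_ncard hsub hfin

end Pool.Agent.Results.MP_021685_ag.FixedFieldLargeDimension
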