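import Mathlib
import Pool.Agent.J4H9.NStm

/-!
# Almost all abelian varieties of large dimension over a fixed finite field, in all Newton strata

Let `q = p ^ a` be a power of a prime number. The Weil polynomials of degree `2 g` over the field
with `q` elements are the polynomials with integral coefficients, leading coefficient one and
constant term `q ^ g`, all of whose roots have absolute value `√q`. Let `ν` be a symmetric Newton
polygon, that is, let `lam 0 ≤ lam 1 ≤ ⋯ ≤ lam (g - 1)` be its first `g` slopes, `0 ≤ lam i ≤ 1 / 2`.
The set `newtonAbove p a lam g` consists of the Weil polynomials whose Newton polygon is not below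
`ν` (the closed stratum), and the set `newtonThrough p a lam g E` of those members whose Newton
polygon meets `ν` over all points of a finite set `E` of integers from one to `g`. If `E` contains
the vertices of `ν` this is the set of all Weil polynomials with the Newton polygon `ν`.

Assume that the height of `ν` over `g` is at most `(1 / 2 - μ) g`. Let `S` be a subset of
`newtonAbove p a lam g` with at least `1 / D` times as many elements as `newtonThrough p a lam g E`
(for example one of these two sets, `D = 1`). Then the number of the tuples `(f 1, …, f m)` of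
elements of `S` such that one of the `f i` is reducible or the statement
`TateForSmall q b (f 1, …, f m)` is not true is at most
`m ^ 2 D 2 ^ #E 8 ^ g q ^ (- (μ (1 - κ) / 2 - ε) g)` times the number of all tuples, where
`b = ⌊κ g⌋`, `1 / 2 ≤ κ < 1`. The bound is uniform in `q`, in the Newton polygon and in the dimension
`g`. So if `q > 8 ^ (2 / (μ (1 - κ)))` is fixed and the dimension tends to infinity, then the proportion
of the exceptional tuples tends to zero exponentially, in all Newton strata of height at most
`(1 / 2 - μ) g` (with `8 ^ g` replaced by `16 ^ g`, as there are at most `g` vertices). In particular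
this is true for the stratum of all abelian varieties with a given rank of the group of points of
order `p` (the slopes are zero or arbitrarily small, `μ` is arbitrarily close to `1 / 2`), also if
this rank is zero. The case of the slopes `lam i = 0` (`E` empty or `E = {g}`) is the case of all
abelian varieties.

If `q = p` is a prime number, then by the theorem of Honda and Tate every irreducible Weil
polynomial of degree `2 g`, `g > 1`, is the characteristic polynomial of Frobenius of a simple
abelian variety of dimension `g`, so all members of the strata outside the exceptional set are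
isogeny classes.

`TateForSmall q b (f 1, …, f m)` is the following statement. Let `A` be a product of powers of
abelian varieties with the characteristic polynomials of Frobenius `f i` over the field with `q`
elements, over any finite extension of this field. Let `Y` be a smooth projective variety such that
every eigenvalue of Frobenius on `H = H ^ w (Y)` has a power in the field generated by all algebraic
numbers of degree at most `b`. Then every Tate class in `⋀ ^ n H ^ 1 (A) ⊗ H ^ w (Y)` is a linear
combination of products of divisor classes on `A` and a Tate class on `Y`. So the Tate conjecture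
for `A × Y` is a consequence of the Tate conjecture for `Y`; in particular (`Y` a point) the Tate
conjecture is true for all `A`.
-/

set_option autoImplicit false

namespace Pool.Agent.Results.MP_021685_ag.NewtonStrata

open Polynomial Filter Pool.Agent.W521.Descent Pool.Agent.J4H9.Alg Pool.Agent.J4H9.NGauss
  Pool.Agent.J4H9.NStm Pool.Agent.J4H9.NAll

theorem result (κ μ ε : ℝ) (hκ : 1 / 2 ≤ κ) (hκ1 : κ < 1) (hμ : 0 < μ) (hμ1 : μ ≤ 1 / 2)
    (hε : 0 < ε) (hε1 : ε < μ * (1 - κ) / 2) :
    ∃ g₀ : ℕ, ∀ g : ℕ, g₀ ≤ g → ∀ p a : ℕ, p.Prime → 0 < a → ∀ lam : ℕ → ℝ, Slopes lam →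
      ∑ i ∈ Finset.range g, lam i ≤ (1 / 2 - μ) * g →
      ∀ E : Finset ℕ, (∀ j ∈ E, 0 < j ∧ j ≤ g ∧
        ∃ n : ℕ, (a : ℝ) * ∑ i ∈ Finset.range j, lam i = n) →
      ((newtonAbove p a lam g).Finite ∧
        (64 ≤ ((p ^ a : ℕ) : ℝ) ^ (μ / 2) → 0 < (newtonThrough p a lam g E).ncard)) ∧
      ∀ (S : Set ℤ[X]) (D : ℝ), S ⊆ newtonAbove p a lam g → 1 ≤ D →
        ((newtonThrough p a lam g E).ncard : ℝ) ≤ D * S.ncard → ∀ m : ℕ,
        ({f : Fin m → ℤ[X] | (∀ i, f i ∈ S) ∧ ¬ (TateForSmall (p ^ a) ⌊κ * g⌋₊ f ∧
            ∀ i, Irreducible ((f i).map (Int.castRingHom ℚ)))}.ncard : ℝ) ≤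
          (m : ℝ) ^ 2 * D * 2 ^ E.card * 8 ^ g *
            ((p ^ a : ℕ) : ℝ) ^ (-((μ * (1 - κ) / 2 - ε) * g)) * (S.ncard : ℝ) ^ m :=
  main_pred hκ hκ1 hμ hμ1 hε hε1 (fun q b _ f => TateForSmall q b f ∧
      ∀ i, Irreducible ((f i).map (Int.castRingHom ℚ)))
    fun _ _ _ _ _ hq hg hf => ⟨(holds_of_fam hq hf).1, irreducible_of_fam hq hg hf⟩

end Pool.Agent.Results.MP_021685_ag.NewtonStrata
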