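import Pool.Agent.J4H46.TA.Prime

/-!
# The Tate conjecture at all primes for elliptic surfaces with a section of order two: a criterion, and
# all the surfaces `y² = x (x² + a x + b)` with `b` and `a² - 4 b` irreducible of the same odd prime degree

Let `k` be a number field with ring of integers `O`, and `a`, `b` polynomials over `O`, `d = a² - 4 b`.
Every elliptic surface over the projective line over `k` with a section of order two is the minimal
surface `X` with an equation `E : y² = x (x² + a x + b)`. If the degrees of `a` and `b` are at most `2 n`
and `4 n`, with `n` minimal, then `X` is regular with geometric genus `n - 1`.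

Theorem. Let `deg a ≤ 2 n`, and let each of `b`, `d` be separable, of odd degree or of degree `4 n`. Let
`b` and `d` be coprime or `a = 0`. Suppose one of the following.

(A) Some element of the absolute Galois group of `k` permutes the roots of `b` in at most two cycles, of
odd lengths, and the roots of `d` too (`OddCycles`).

(B) An odd prime number `p` divides the orders of the Galois groups of `b` and `d`, which have degree at
most `p + 1`.

Then for a set of primes `v` of `k` of positive lower density the following holds (`GoodPrime`): `X` has
good reduction at `v` (the residue field `κ` has odd characteristic, the reductions of `b` and `d` are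
separable, have the same degrees as `b` and `d`, and are coprime unless `a = 0`), and for the reduction
of `E` and all its twists `E_c` by constants `c` of `κ`

1. the Tate conjecture for divisors at the prime 2 holds over `κ` (`TateAtTwo`);
2. every point of `E_c(κ(t))` is the sum of a point of order at most two and the double of a point, so
  `E_c(κ(t))` is finite (it is finitely generated);
3. the Tate-Shafarevich group of `E_c` over `κ(t)` has no element of order two: every class of
  2-power order in `H¹(κ(t), E_c)` which is trivial over all the completions of `κ(t)`, the one at
  `t = ∞` included, is zero (`ShaTwoTrivialAll`).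

In particular this is true for ALL `a`, `b` such that `b` and `a² - 4 b` are irreducible over `k` of the same
odd prime degree `p`; the geometric genus is `⌈p / 4⌉ - 1`. For example, over the rational numbers it is
true for `y² = x (x² + x + t ^ p - 2)`, for all odd prime numbers `p`.

The Tate conjecture over `k`. By the theorems of Artin, Tate and Milne the conjectures of Tate (for
divisors, at all primes) and of Birch and Swinnerton-Dyer hold for these reductions `X_v`, and the Tate
classes of `X_v` are spanned by the zero section and the components of the fibres. These classes lift to
`X` over the algebraic closure, and the specialisation `H²(X) → H²(X_v)` is injective at all primes `ℓ`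
different from the characteristic of `κ`, of which there are infinitely many. So the Tate conjecture for
divisors on `X` over `k` holds at ALL primes `ℓ`, and so it does for the twists by the constants of `k`.
The theorem can be applied over every finite extension of `k`; if for example `b` and `a² - 4 b` are
irreducible of odd prime degree `p` over `k`, then they are irreducible over all the extensions of degree
prime to `p`.

The proof: descent by 2-isogenies over `κ(t)`. Let each of the reductions of `b` and `d` be a constant
times an irreducible polynomial of odd degree, or of degree `4 n` and a constant times a product of two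
irreducible polynomials of odd degree. In the second case the divisors of `b` allowed by the local
conditions have even degree because of the place at infinity, so only `1` and `b` are left, and a constant
which is a square modulo a divisor of odd degree is a square. By Chebotarev's theorem this is so at a set
of primes of positive density in case (A), and (B) implies (A): a `p`-Sylow subgroup of the Galois group
has an element which acts nontrivially on the roots of `b` and on the roots of `d`.
-/

set_option autoImplicit false

namespace Pool.Agent.Results.MP_021685_ag.OddCycleCriterion

open Polynomial NumberField Filter IsDedekindDomain Pool.Agent.J4H46.TA Pool.Agent.W401.Cheb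

/-- The conditions on the separable polynomials `b` and `d = a² - 4 b`. -/
structure Shape {k : Type} [Field k] [NumberField k] (n : ℕ) (a b d : (𝓞 k)[X]) : Prop where
  disc : d = a ^ 2 - 4 * b
  degA : a.natDegree ≤ 2 * n
  degB : Odd b.natDegree ∨ b.natDegree = 4 * n
  degD : Odd d.natDegree ∨ d.natDegree = 4 * n
  sepB : (b.map (algebraMap (𝓞 k) k)).Separable
  sepD : (d.map (algebraMap (𝓞 k) k)).Separable
  cop : a = 0 ∨ IsCoprime (b.map (algebraMap (𝓞 k) k)) (d.map (algebraMap (𝓞 k) k))

/-- The conditions (A) and (B) for two polynomials over `k`. -/
def Admissible {k : Type} [Field k] (f g : k[X]) : Prop :=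
  (∃ σ : AlgebraicClosure k ≃ₐ[k] AlgebraicClosure k, OddCycles σ f ∧ OddCycles σ g) ∨
  (∃ p : ℕ, p.Prime ∧ Odd p ∧ f.natDegree ≤ p + 1 ∧ g.natDegree ≤ p + 1 ∧
    p ∣ Nat.card f.Gal ∧ p ∣ Nat.card g.Gal)

/-- The lower density of the set of primes of `k` is positive. -/
def PosDensity {k : Type} [Field k] [NumberField k] (P : HeightOneSpectrum (𝓞 k) → Prop) : Prop :=
  ∃ δ : ℝ, 0 < δ ∧ ∀ᶠ N : ℕ in atTop, δ ≤ dens P N

/-- `f` is irreducible over `k`, of degree `p`. -/
def IrrDeg {k : Type} [Field k] [NumberField k] (p : ℕ) (f : (𝓞 k)[X]) : Prop :=
  f.natDegree = p ∧ Irreducible (f.map (algebraMap (𝓞 k) k))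

theorem result :
    (∀ (k : Type) [Field k] [NumberField k] (n : ℕ) (a b d : (𝓞 k)[X]), Shape n a b d →
      Admissible (b.map (algebraMap (𝓞 k) k)) (d.map (algebraMap (𝓞 k) k)) →
      PosDensity (GoodPrime a b)) ∧
    (∀ (k : Type) [Field k] [NumberField k] (p : ℕ) (a b : (𝓞 k)[X]), p.Prime → Odd p →
      IrrDeg p b → IrrDeg p (a ^ 2 - 4 * b) → PosDensity (GoodPrime a b)) ∧
    (∀ p : ℕ, p.Prime → Odd p → PosDensity (GoodPrime (k := ℚ) 1 (X ^ p - 2))) := by
  refine ⟨?_, fun k _ _ p a b hp hodd hb hd => prime_irr hp hodd hb.1 hd.1 hb.2 hd.2,
    fun p hp hodd => example_Q hp hodd⟩
  intro k _ _ n a b d hS hadm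
  obtain ⟨rfl, ha, hb, hd, s1, s2, hco⟩ := hS
  have inj := FaithfulSMul.algebraMap_injective (𝓞 k) k
  rcases hadm with ⟨σ, h1, h2⟩ | ⟨p, hp, hodd, d1, d2, g1, g2⟩
  · exact criterion ha hb hd s1 s2 hco h1 h2
  · rw [natDegree_map_eq_of_injective inj] at d1 d2
    exact prime_main hp hodd ha hb hd s1 s2 hco d1 d2 g1 g2

end Pool.Agent.Results.MP_021685_ag.OddCycleCriterion
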