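import Mathlib
import Pool.Agent.J4H9.NStm
import Pool.Agent.J4H9.OPMain

/-!
# The Tate conjecture over number fields for the products of arbitrary varieties with almost all
abelian varieties, by one Frobenius element

Let `q = p ^ a` be a power of a prime number and `ν` a symmetric Newton polygon whose first `g`
slopes are `lam 0 ≤ lam 1 ≤ ⋯ ≤ lam (g - 1)`, `0 ≤ lam i ≤ 1 / 2`. The set `newtonAbove p a lam g`
consists of the Weil polynomials of degree `2 g` over the field with `q` elements whose Newton
polygon is not below `ν` (the closed stratum), and the set `newtonThrough p a lam g E` of those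
members whose Newton polygon meets `ν` over all points of a finite set `E` of integers from one to
`g` (if `E` contains the vertices of `ν`, the set of all Weil polynomials with the Newton polygon
`ν`). Assume that the height of `ν` over `g` is at most `(1 / 2 - μ) g`. Let `S` be a subset of
`newtonAbove p a lam g` with at least `1 / D` times as many elements as `newtonThrough p a lam g E`.

We show that, with at most `m ^ 2 D 2 ^ #E 8 ^ g q ^ (- (μ (1 - κ) / 2 - ε) g)` times the number of all
tuples as exceptions, the tuples `(f 1, …, f m)` of elements of `S` have the following property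
`TateProducts q b (f 1, …, f m)`, `b = ⌊κ g⌋`. Let `K` be a number field (or a finitely generated
field of characteristic zero) and `A` an abelian variety of dimension `m g` over `K` such that
`f 1 ⋯ f m` is the characteristic polynomial of the Frobenius element at one place `v` of good
reduction of `A` with residue field of `q` elements. Let `Z` be **any** smooth projective variety
over `K`, with good reduction at `v`, such that the Frobenius eigenvalues at `v` on the cohomology
group `H ^ w (Z)` have powers in the field generated by all algebraic numbers of degree at most `b`
(for example any `Z` whose `w`-th Betti number is at most `b`). Then all Tate classes in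
`H ^ (2 m) (A ^ n) ⊗ H ^ w (Z)`, for all `n` and `m`, are linear combinations of products of `m` Tate
classes of degree two on `A ^ n`, which are classes of divisors by the theorem of Faltings, and Tate
classes in `H ^ w (Z)`; and there are no Tate classes in `H ^ (2 m + 1) (A ^ n) ⊗ H ^ w (Z)`. So the Tate
conjecture for all products `A ^ n × Z` is true if and only if it is true for `Z`; for `Z` a point:
**the Tate conjecture is true for all powers of `A`**.

The bound is uniform in `q`, in the Newton polygon and in the dimension. So if
`q > 8 ^ (2 / (μ (1 - κ)))` is fixed and `g` tends to infinity, then the proportion of the exceptional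
tuples in the stratum tends to zero exponentially (with `16 ^ g` in place of `8 ^ g` for large `E`). There
is no condition on the endomorphisms of `A`, on other places, or on the reduction of `A` except its
isogeny class.

In the Lean statement `V` is the rational Tate module with the action `ρ` of the Galois group, `χ`
is the cyclotomic character, `γ` the Frobenius element, and `M = H ^ w (Z)` with the action `σ`.

The idea of the proof. For the tuples outside the exceptional set the roots of the `f i` have no
multiplicative relations with numbers of degree at most `b` except the obvious ones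
(MP_021685_ag/NewtonStrata). So the Zariski closure of the group generated by the Frobenius element
in its action on `V` and `M` contains a maximal torus of the symplectic group, acting trivially on
`M`. The components of a Tate class with values in `M` are killed by the Lie algebra generated by the
conjugates of this torus, and then they are sums of products of invariants of degree two; this
part of the proof is the one of the starting files `Pool.Agent.N166.CZ`.
-/

set_option autoImplicit false

namespace Pool.Agent.Results.MP_021685_ag.OnePlaceTimesVarieties

open Polynomial Filter Pool.Agent.J4H9.NGauss Pool.Agent.J4H9.NStm Pool.Agent.J4H9.OPDefs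
  Pool.Agent.J4H9.OPMain

theorem result (κ μ ε : ℝ) (hκ : 1 / 2 ≤ κ) (hκ1 : κ < 1) (hμ : 0 < μ) (hμ1 : μ ≤ 1 / 2)
    (hε : 0 < ε) (hε1 : ε < μ * (1 - κ) / 2) :
    ∃ g₀ : ℕ, ∀ g : ℕ, g₀ ≤ g → ∀ p a : ℕ, p.Prime → 0 < a → ∀ lam : ℕ → ℝ, Slopes lam →
      ∑ i ∈ Finset.range g, lam i ≤ (1 / 2 - μ) * g →
      ∀ E : Finset ℕ, (∀ j ∈ E, 0 < j ∧ j ≤ g ∧
        ∃ n : ℕ, (a : ℝ) * ∑ i ∈ Finset.range j, lam i = n) →
      ((newtonAbove p a lam g).Finite ∧
        (64 ≤ ((p ^ a : ℕ) : ℝ) ^ (μ / 2) → 0 < (newtonThrough p a lam g E).ncard)) ∧
      ∀ (S : Set ℤ[X]) (D : ℝ), S ⊆ newtonAbove p a lam g → 1 ≤ D →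
        ((newtonThrough p a lam g E).ncard : ℝ) ≤ D * S.ncard → ∀ m : ℕ,
        ({f : Fin m → ℤ[X] | (∀ i, f i ∈ S) ∧ ¬ TateProducts (p ^ a) ⌊κ * g⌋₊ f}.ncard : ℝ) ≤
          (m : ℝ) ^ 2 * D * 2 ^ E.card * 8 ^ g *
            ((p ^ a : ℕ) : ℝ) ^ (-((μ * (1 - κ) / 2 - ε) * g)) * (S.ncard : ℝ) ^ m :=
  main_pred hκ hκ1 hμ hμ1 hε hε1 (fun q b _ f => TateProducts q b f)
    fun _ _ _ _ _ hq hg hf => tateProducts_fam hq hg hf

end Pool.Agent.Results.MP_021685_ag.OnePlaceTimesVarieties
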